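import Pool.Agent.TH677.DS.TopFin

/-!
# MP_51bb46_lc: short Frege refutations of the pigeonhole principle contain formulas with many
deep subformulas

Definitions (`Pool/Agent/TH710/PHP/Defs.lean`):

* `Fm α`: formulas with `¬` and unbounded `∧`, `∨`; `Fm.depth`: number of alternations of `∧`, `∨`,
  negations being pushed to the variables; `Fm.size`: number of symbols; `Fm.sub`: subformulas;
* `Local`, `Inferred`: the sound inferences which only depend on the meaning of the outermost
  connectives of at most `c` subformulas and have at most `c` premises, or are case distinctions
  for a conjunction or disjunction of unbounded fan-in. Every Frege system with finitely many sound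
  rule schemes and every sequent calculus with the usual rules for unbounded `∧`, `∨` is of this
  kind, for some `c`;
* `allSub L`: all subformulas of the lines `L`;
* `IsClause`: the clauses of the pigeonhole principle with `m` pigeons and `n` holes (only totality
  and injectivity); `Refutation c A`: its refutations all of whose lines are in the class `A`, here
  the class of all formulas: there is no restriction of the depth.

`deep d φ` (`Pool/Agent/TH677/DS/Deep.lean`) is the set of the subformulas of `φ` whose depth is
more than `d`; `Light d w φ` says that it has at most `w` members, and `tdepth d w φ`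
(`Pool/Agent/TH677/DS/Top.lean`) is the depth of `φ` above its light subformulas: the number of
alternations when light subformulas are treated like variables. It is `0` for light formulas.
-/

set_option autoImplicit false

namespace Pool.Agent.Results.MP_51bb46_lc.FewDeepSubformulas

open Pool.Agent.TH710.PHP Pool.Agent.TH677.DS

/-- For every Frege system (`c`), every `d ≥ 1` and every `δ > 0` there is an `ε > 0` such that the
following holds for all large `n` and all `m ≤ n + n ^ (1 - δ)`. Call a formula light if it has at
most `n ^ ε` different subformulas of depth more than `d`. Every Frege refutation (with formulas of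
any depth) of the pigeonhole principle with `m` pigeons and `n` holes in which fewer than
`exp (n ^ ε)` different formulas occur as subformulas, in particular every one of size less than
`exp (n ^ ε)`, contains a formula whose depth above its light subformulas is more than `d`; in
particular this formula is not light. (The number of different subformulas is the size of the
refutation when formulas are written as circuits, as in extended Frege systems.) -/
theorem result (c d : ℕ) (hd : 1 ≤ d) (δ : ℝ) (hδ : 0 < δ) : ∃ ε : ℝ, 0 < ε ∧ ∃ n₀ : ℕ,
    ∀ n m : ℕ, n₀ ≤ n → (m : ℝ) ≤ n + (n : ℝ) ^ (1 - δ) →
    ∀ R : Refutation c (fun _ : Fm (Fin m × Fin n) => True),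
      ((allSub R.line).card : ℝ) < Real.exp ((n : ℝ) ^ ε) →
        ∃ i, d < tdepth d ⌊(n : ℝ) ^ ε⌋₊ (R.line i) := by
  obtain ⟨ε, hε, n₀, h⟩ := lower_exp2 c d hd δ hδ
  refine ⟨ε, hε, n₀, fun n m hn hm R hR => ?_⟩
  by_contra hcon
  push Not at hcon
  have h1 := h n m hn hm (fun φ => tdepth d ⌊(n : ℝ) ^ ε⌋₊ φ ≤ d) (fun φ hφ => hφ)
    ⟨R.len, R.line, hcon, R.sound, R.contra⟩
  exact absurd h1 (not_le.mpr hR)

end Pool.Agent.Results.MP_51bb46_lc.FewDeepSubformulas
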