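import Pool.Agent.TH708.Ash.Form
import Pool.Agent.TH708.Ips.Main

set_option autoImplicit false

/-!
# Algebraic refutations given by small formulas share many variables along some path

The equation `∑ i j, z i j * x i * x j = β` has no solution with Boolean `x i`, `z i j` in a field of
characteristic zero, if `β` is not a small natural number.  We consider its linear algebraic
refutations (linear IPS, Nullstellensatz with a succinctly given coefficient)

`f * (∑ i j, z i j * x i * x j - β) + ∑ v, h v * (v ^ 2 - v) = 1`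

in which `f` is computed (at Boolean points) by an arithmetic formula.  For multilinear formulas
(Forbes, Shpilka, Tzameret, Wigderson, after Raz) the two factors of every product gate have no
common variable.  Here common variables are counted: along every path from the root to a leaf we add
up, over the product gates of the path, the numbers of the `x i` which both factors read.  If all
these sums are at most `n ^ (1/2 - ε)`, the formula has at least `2 ^ (ε² / 8 * (log n)²) / 2` leaves,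
`n ^ Ω(log n)`.  The variables `z i j` can be used in any way, and no degree is bounded.
-/

namespace Pool.Agent.Results.MP_51bb46_lc.SharingFormulas

open Finset
open Pool.Agent.TH708.Ari
open Pool.Agent.TH708.Ips
open Pool.Agent.TH708.Ash

theorem bound (ε : ℝ) (hε : 0 < ε) (hε' : ε ≤ 1 / 2) : ∃ N₀ : ℕ, ∀ (K : Type) [Field K] (β : K)
    (n : ℕ) (F : Ex K (Fin n ⊕ (Fin n × Fin n))) (W : Finset (Fin n)),
    (W.card.factorial : K) ≠ 0 → N₀ ≤ W.card → Inverts β F.eval →
      (2 : ℝ) ^ (ε ^ 2 / 8 * (Nat.log 2 W.card : ℝ) ^ 2) ≤ 2 * leaves F ∨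
      (W.card : ℝ) ^ (1 / 2 - ε) < sharing Sum.inl W F := by
  obtain ⟨N₀, hN₀⟩ := size_or_share ε hε hε'
  refine ⟨N₀, fun K _ β n F W hfac hW hI => ?_⟩
  refine hN₀ K _ n F Sum.inl Sum.inl_injective W hW fun W' hW' Y hY => ?_
  refine full_of_count F.eval _ hI.isCount W' (fun s hs => ?_) Y hY
  have hTn : W.card ≤ n := by
    have := card_le_univ W
    rwa [Fintype.card_fin] at this
  have hWW := card_le_card hW'
  refine hI.diff s (by omega) ?_
  have hdvd : s.factorial ∣ W.card.factorial := Nat.factorial_dvd_factorial (by omega)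
  obtain ⟨q, hq⟩ := hdvd
  intro h0
  apply hfac
  rw [hq]
  push_cast
  rw [h0, zero_mul]

theorem result :
    (∀ ε : ℝ, 0 < ε → ε ≤ 1 / 2 → ∃ N₀ : ℕ, ∀ (K : Type) [Field K] (β : K)
      (n : ℕ) (F : Ex K (Fin n ⊕ (Fin n × Fin n))) (W : Finset (Fin n)),
      (W.card.factorial : K) ≠ 0 → N₀ ≤ W.card → Inverts β F.eval →
        (2 : ℝ) ^ (ε ^ 2 / 8 * (Nat.log 2 W.card : ℝ) ^ 2) ≤ 2 * leaves F ∨
        (W.card : ℝ) ^ (1 / 2 - ε) < sharing Sum.inl W F) ∧
    ∀ (K : Type) [Field K] [CharZero K] (β : ℕ → K) (ε : ℝ), 0 < ε → ε ≤ 1 / 2 →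
      ¬ ∃ c : ℕ, ∀ n : ℕ, 1 ≤ n →
        ∃ (F : Ex K (Fin n ⊕ (Fin n × Fin n))) (f : MvPolynomial (Fin n ⊕ (Fin n × Fin n)) K)
          (h : Fin n ⊕ (Fin n × Fin n) → MvPolynomial (Fin n ⊕ (Fin n × Fin n)) K),
          Refutes (form n (β n)) f h ∧
          (∀ p, (∀ v, p v = 0 ∨ p v = 1) → F.eval p = MvPolynomial.eval p f) ∧
          (sharing Sum.inl univ F : ℝ) ≤ (n : ℝ) ^ (1 / 2 - ε) ∧ leaves F ≤ n ^ c + c := by
  refine ⟨bound, ?_⟩
  rintro K _ _ β ε hε hε' ⟨c, H⟩
  obtain ⟨N₀, hN₀⟩ := bound ε hε hε'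
  obtain ⟨N₁, hN₁⟩ := exists_nat_gt (8 / ε ^ 2 * (2 * c + 2))
  obtain ⟨N, hN⟩ : ∃ N, N = N₀ + N₁ + 1 := ⟨_, rfl⟩
  obtain ⟨F, f, h, g1, g2, g3, g4⟩ := H (2 ^ N) Nat.one_le_two_pow
  have hcard : (Finset.univ : Finset (Fin (2 ^ N))).card = 2 ^ N := by
    rw [Finset.card_univ, Fintype.card_fin]
  have hlog : Nat.log 2 (2 ^ N) = N := Nat.log_pow (by norm_num) N
  have hlt : N < 2 ^ N := Nat.lt_two_pow_self
  have hb := hN₀ K (β (2 ^ N)) (2 ^ N) F univ (by exact_mod_cast Nat.factorial_ne_zero _)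
    (by rw [hcard]; omega) (g1.inverts g2)
  rw [hcard, hlog] at hb
  rcases hb with hb | hb
  · have h1 : (2 : ℝ) * leaves F ≤ 2 ^ ((N * c + c + 1 : ℕ) : ℝ) := by
      rw [Real.rpow_natCast]
      have hc : c < 2 ^ c := Nat.lt_two_pow_self
      have h6 : (2 ^ N) ^ c + c ≤ 2 ^ (N * c + c) := by
        rw [← pow_mul, pow_add]
        have hx : 1 ≤ 2 ^ (N * c) := Nat.one_le_two_pow
        nlinarith
      have h7 : 2 * leaves F ≤ 2 ^ (N * c + c + 1) := by
        rw [pow_succ]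
        have := g4.trans h6
        omega
      exact_mod_cast h7
    have h2 := (Real.rpow_le_rpow_left_iff (by norm_num : (1 : ℝ) < 2)).1 (hb.trans h1)
    push_cast at h2
    have hNr : (N : ℝ) = N₀ + N₁ + 1 := by rw [hN]; push_cast; ring
    have hN₀r : (0 : ℝ) ≤ N₀ := Nat.cast_nonneg _
    have hc0 : (0 : ℝ) ≤ c := Nat.cast_nonneg _
    have h3 : 8 / ε ^ 2 * (2 * c + 2) ≤ (N : ℝ) := by linarith
    have h1N : (1 : ℝ) ≤ N := by
      have : (0 : ℝ) ≤ N₁ := Nat.cast_nonneg _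
      linarith
    have h4 : (2 * (c : ℝ) + 2) ≤ ε ^ 2 / 8 * N := by
      have h5 : ε ^ 2 / 8 * (8 / ε ^ 2 * (2 * c + 2)) = 2 * (c : ℝ) + 2 := by
        have : ε ^ 2 ≠ 0 := by positivity
        field_simp
      rw [← h5]
      exact mul_le_mul_of_nonneg_left h3 (by positivity)
    have h5 : (2 * (c : ℝ) + 2) * N ≤ ε ^ 2 / 8 * N ^ 2 := by
      have := mul_le_mul_of_nonneg_right h4 (by linarith : (0 : ℝ) ≤ N)
      nlinarith
    nlinarith
  · push_cast at hb g3
    linarith

end Pool.Agent.Results.MP_51bb46_lc.SharingFormulas
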